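import Pool.Agent.Lib.MP_627a61_nt.Bx.Sharp

/-!
Rational points on Kobayashi hyperbolic projective varieties: equivalence with a problem on
quadratic forms in several variables all of whose values on the integer points of a box are
squares, through the geometry of the box varieties.
-/

open scoped LinearAlgebra.Projectivization
open Pool.Agent.Lib.MP_627a61_nt

namespace Pool.Agent.Results.MP_627a61_nt.BoxVariety

/-- Let `k` be a field of characteristic zero. For a linear space `Φ` of quadratic forms in `n`
variables over `k` (symmetric matrices) let `X` be the variety of the squares of linear forms in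
`Φ` and `V` the box variety: `z v ^ 2 = φ(v)` for all `v` in `{0, ..., B} ^ n`, `φ` in `Φ`.

First part: let `B ≥ 3`. For every `n` and `Φ`, the box variety is an intersection of diagonal
quadrics over `k`; at every embedding `σ` of `k` in `ℂ` it is Kobayashi hyperbolic if and only if
`X` is, and every entire curve in it is constant or is `z v = ε v * ℓ(v)` with constant signs
`ε v` and an entire curve `ℓ` in `X`; it has finitely many `k`-points if and only if, up to
scalars, only finitely many forms in `Φ` have only square values on the box, up to a common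
factor. For every set `T` of embeddings the following are equivalent. (1) Every projective
variety over `k` which is hyperbolic at all `σ ∈ T` has only finitely many `k`-points. (2) This
holds for all box varieties. (3) This holds for all varieties `X` of squares. (4) If `X` is
hyperbolic at all `σ ∈ T`, then up to scalars only finitely many forms in `Φ` have only square
values on the box, up to a common factor.

Second part: for `B = 2` there is over every `k` a linear space `Φ` of binary forms for which `X`
has finitely many `k`-points and is hyperbolic at all `σ`, the box variety is not hyperbolic at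
any `σ`, and infinitely many forms in `Φ` have only square values on the box. -/
theorem result (k : Type) [Field k] [CharZero k] :
    (∀ B : ℕ, 3 ≤ B →
      (∀ (n : ℕ) (Φ : Submodule k (Fin n → Fin n → k)), (∀ φ ∈ Φ, ∀ i j, φ i j = φ j i) →
        (∃ a : (Fin n → Fin (B + 1)) → (Fin n → Fin (B + 1)) → k, ∀ (K : Type) [Field K]
          (τ : k →+* K), points τ (diagQuad a) = boxVariety τ B Φ) ∧
        (∀ σ : k →+* ℂ,
          (KobayashiHyperbolic (boxVariety σ B Φ) ↔ KobayashiHyperbolic (squareForms σ Φ)) ∧
          ∀ ψ : ℂ → ℙ ℂ ((Fin n → Fin (B + 1)) → ℂ), (∀ z, HolomorphicAt ψ z) →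
            (∀ z, ψ z ∈ boxVariety σ B Φ) → (∀ z w, ψ z = ψ w) ∨
            ∃ (ε : (Fin n → Fin (B + 1)) → ℂ) (ℓ : ℂ → ℙ ℂ (Fin n → ℂ)),
              (∀ v, ε v = 1 ∨ ε v = -1) ∧ (∀ z, HolomorphicAt ℓ z) ∧
              (∀ z, ℓ z ∈ squareForms σ Φ) ∧
              ∀ z, ∃ c : ℂ, ∀ v, (ψ z).rep v = c * (ε v * ∑ i, ((v i : ℕ) : ℂ) * (ℓ z).rep i)) ∧
        ((boxVariety (RingHom.id k) B Φ).Finite ↔ (boxSquares B Φ).Finite)) ∧
      ∀ T : Set (k →+* ℂ), List.TFAE [
        ∀ (n : ℕ) (S : Set (MvPolynomial (Fin (n + 1)) k)), (∀ P ∈ S, ∃ m, P.IsHomogeneous m) →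
          (∀ σ ∈ T, KobayashiHyperbolic (points σ S)) → (points (RingHom.id k) S).Finite,
        ∀ (n : ℕ) (Φ : Submodule k (Fin n → Fin n → k)), (∀ φ ∈ Φ, ∀ i j, φ i j = φ j i) →
          (∀ σ ∈ T, KobayashiHyperbolic (boxVariety σ B Φ)) →
          (boxVariety (RingHom.id k) B Φ).Finite,
        ∀ (n : ℕ) (Φ : Submodule k (Fin n → Fin n → k)), (∀ φ ∈ Φ, ∀ i j, φ i j = φ j i) →
          (∀ σ ∈ T, KobayashiHyperbolic (squareForms σ Φ)) →
          (squareForms (RingHom.id k) Φ).Finite,
        ∀ (n : ℕ) (Φ : Submodule k (Fin n → Fin n → k)), (∀ φ ∈ Φ, ∀ i j, φ i j = φ j i) →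
          (∀ σ ∈ T, KobayashiHyperbolic (squareForms σ Φ)) → (boxSquares B Φ).Finite]) ∧
    ∃ Φ : Submodule k (Fin 2 → Fin 2 → k), (∀ φ ∈ Φ, ∀ i j, φ i j = φ j i) ∧
      (squareForms (RingHom.id k) Φ).Finite ∧
      (∀ σ : k →+* ℂ, KobayashiHyperbolic (squareForms σ Φ) ∧
        ¬ KobayashiHyperbolic (boxVariety σ 2 Φ)) ∧
      (boxSquares 2 Φ).Infinite :=
  ⟨fun B hB => Bx.box_variety B hB k, Bx.exF k, Bx.exF_symm, Bx.exF_finite k,
    fun σ => ⟨Bx.exF_kob k σ, Bx.exF_not k σ⟩, Bx.exF_infinite k⟩

end Pool.Agent.Results.MP_627a61_nt.BoxVariety
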