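import Pool.Agent.Lib.MP_627a61_nt.Cy.V_TOP

/-!
A projective variety `Z` of dimension at most `d` over a field `k` of characteristic zero has, for
every `n > d` and `e ≥ 2`, a finite map, defined over `k`, to an `e`-fold cyclic cover
`C : y ^ e = F(x)` of projective `n`-space which is Kobayashi hyperbolic at the same embeddings of
`k` as `Z`. The singular locus of `F = 0` has dimension less than `max (2 d - n) 0`; so `F = 0` and
`C` are smooth for `n = 2 d`.
-/

open scoped LinearAlgebra.Projectivization
open Pool.Agent.Lib.MP_627a61_nt MvPolynomial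

namespace Pool.Agent.Results.MP_627a61_nt.HyperbolicCovers

/-- Let `k` be a field of characteristic zero, for example a number field, `T` a finite set of
embeddings of `k` in the complex numbers and `Z` the projective variety with equations `S` over
`k`, of dimension at most `d`: the homogeneous coordinate ring `k[X] / (S)` has Krull dimension at
most `d + 1`. Let `e ≥ 2`, `1 ≤ d < n`, `2 * d ≤ n + s` and `g` be natural numbers. There are
`m > g`, a form `F` of degree `e * m` in `n + 1` variables whose zero locus has a singular locus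
of dimension less than `s`, forms `f j` (`j ≤ n`) of the same degree and a form `h`, all over `k`,
such that:

1. over all extension fields `L` of `k` the forms `f j` have no common zero on `Z`, and
   `h ^ e = F(f)` on `Z`; so `x ↦ (f x : h x)` is a map from `Z` to the cyclic cover
   `C : y ^ e = F(x)` of projective `n`-space;
2. at most `d + 1` points of `Z` over `L` have the same image under `f`, so the map is finite;
3. for all `σ ∈ T`, `C_σ` is Kobayashi hyperbolic if and only if `Z_σ` is;
4. if there are only finitely many points `x` of projective `n`-space over `L` for which `F(x)` is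
   an `e`-th power in `L` (so if `C(L)` is finite) then `Z(L)` is finite;
5. if `Z` is irreducible of dimension `d` (the radical of the ideal `(S)` is prime and
   `k[X] / (S)` has Krull dimension `d + 1`) then there are forms `R i` of the same degree with
   `R i (f x) = A x * x i` for all points `x` of the cone over `Z`, where the polynomial `A` does
   not vanish identically on `Z`: the map is birational onto its image.

In particular the question for `Z` and `k` follows from the question for the variety `C` of
dimension `n`, at each `σ ∈ T`. -/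
theorem result (k : Type) [Field k] [CharZero k] (T : Set (k →+* ℂ)) (hT : T.Finite)
    (e : ℕ) (he : 2 ≤ e) (g N d n s : ℕ) (S : Set (MvPolynomial (Fin (N + 1)) k))
    (hS : ∀ P ∈ S, ∃ a, P.IsHomogeneous a)
    (hdim : ringKrullDim (MvPolynomial (Fin (N + 1)) k ⧸ Ideal.span S) ≤
      ((d + 1 : ℕ) : WithBot ℕ∞))
    (hd : 1 ≤ d) (hdn : d < n) (hds : 2 * d ≤ n + s) :
    ∃ m, g < m ∧ ∃ (F : MvPolynomial (Fin (n + 1)) k) (b : ℕ)
      (f : Fin (n + 1) → MvPolynomial (Fin (N + 1)) k) (h : MvPolynomial (Fin (N + 1)) k),
      F.IsHomogeneous (e * m) ∧ SingDimLT F s ∧ (∀ j, (f j).IsHomogeneous b) ∧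
      h.IsHomogeneous (b * m) ∧
      (∀ (L : Type) [Field L] (τ : k →+* L) (x : Fin (N + 1) → L), x ≠ 0 →
        (∀ P ∈ S, P.eval₂ τ x = 0) → (∃ j, (f j).eval₂ τ x ≠ 0) ∧
          (h.eval₂ τ x) ^ e = F.eval₂ τ (fun j => (f j).eval₂ τ x)) ∧
      (∀ (L : Type) [Field L] (τ : k →+* L) (x : Fin (d + 2) → Fin (N + 1) → L),
        (∀ a, x a ≠ 0) → (∀ a, ∀ P ∈ S, P.eval₂ τ (x a) = 0) →
        (∀ a a', ∃ c : L, ∀ j, (f j).eval₂ τ (x a) = c * (f j).eval₂ τ (x a')) →
        ∃ a a', a ≠ a' ∧ ∃ c : L, x a = c • x a') ∧
      (∀ σ ∈ T, KobayashiHyperbolic (cyclicCover σ e m F) ↔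
        KobayashiHyperbolic (points σ S)) ∧
      (∀ (L : Type) [Field L] (τ : k →+* L),
        {x : ℙ L (Fin (n + 1) → L) | ∃ y : L, y ^ e = F.eval₂ τ x.rep}.Finite →
        (points τ S).Finite) ∧
      ((Ideal.span S).radical.IsPrime →
        ringKrullDim (MvPolynomial (Fin (N + 1)) k ⧸ Ideal.span S) =
          ((d + 1 : ℕ) : WithBot ℕ∞) →
        ∃ (r : ℕ) (R : Fin (N + 1) → MvPolynomial (Fin (n + 1)) k)
          (A : MvPolynomial (Fin (N + 1)) k), (∀ i, (R i).IsHomogeneous r) ∧
          A ∉ (Ideal.span S).radical ∧
          ∀ (L : Type) [Field L] (τ : k →+* L) (x : Fin (N + 1) → L),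
            (∀ P ∈ S, P.eval₂ τ x = 0) →
            ∀ i, (R i).eval₂ τ (fun j => (f j).eval₂ τ x) = A.eval₂ τ x * x i) :=
  cyclicv_var k T hT e he g N d n s S hS hdim hd hdn hds

end Pool.Agent.Results.MP_627a61_nt.HyperbolicCovers
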