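import Pool.Agent.Lib.MP_627a61_nt.Hy.B_top

/-!
A projective variety `Z` of dimension at most `m` over a field `k` of characteristic zero has a
finite map, defined over `k`, to a hypersurface `H` of the projective space of dimension `m + 1`
over `k` such that `H` is Kobayashi hyperbolic at exactly those complex embeddings of `k` at which
`Z` is. The loci of multiple points of `H` have the expected dimension, and if `Z` is irreducible
of dimension `m` then `H` is irreducible and `Z → H` is birational.
-/

open scoped LinearAlgebra.Projectivization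
open Pool.Agent.Lib.MP_627a61_nt MvPolynomial

namespace Pool.Agent.Results.MP_627a61_nt.SameDimension

/-- Let `Z` be the projective variety with equations `S` over a field `k` of characteristic zero
(a number field for instance), of dimension at most `m`: the homogeneous coordinate ring
`k[X] / (S)` has Krull dimension at most `m + 1`. Let `e₀` be a natural number. There are `m + 2`
forms `F j` of the same degree `e ≥ e₀` and a nonzero form `G` of some degree `d` in `m + 2`
variables, all over `k`, such that the following holds for the hypersurface `H : G = 0`.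

1. For all extension fields `L` of `k` the forms `F j` have no common zero on `Z`, and `F` maps
   `Z` to `H`.
2. If `r + 1` pairwise different points of `Z` over `L` have the same image and `s` of the ratios
   `x_α / x_β` of coordinates of one of them are algebraically independent over `k` then
   `r + s ≤ m`. So the points of `Z` with `r` further points in their fibre form a set of dimension
   at most `m - r`, and fibres have at most `m + 1` points.
3. `Z(L)` is finite if `H(L)` is.
4. For all embeddings `σ` of `k` in `ℂ`, `H_σ` is Kobayashi hyperbolic if and only if `Z_σ` is.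
5. Suppose that `Z` is irreducible of dimension `m`: the radical of the ideal `(S)` is prime and
   `k[X] / (S)` has Krull dimension `m + 1`. Then `G` is irreducible, of degree `d ≥ e ^ m`, all
   zeros of `G` over algebraically closed fields are values of `F` on the cone over `Z`, and there
   are forms `R i` of the same degree with `R i (F x) = A x * x i` for the points `x` of the cone,
   where the polynomial `A` does not vanish identically on `Z`. So `Z → H` is finite, surjective
   and birational. -/
theorem result (k : Type) [Field k] [CharZero k] (n m e₀ : ℕ)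
    (S : Set (MvPolynomial (Fin (n + 1)) k)) (hS : ∀ P ∈ S, ∃ a, P.IsHomogeneous a)
    (hdim : ringKrullDim (MvPolynomial (Fin (n + 1)) k ⧸ Ideal.span S) ≤
      ((m + 1 : ℕ) : WithBot ℕ∞)) :
    ∃ (e : ℕ) (F : Fin (m + 2) → MvPolynomial (Fin (n + 1)) k) (d : ℕ)
      (G : MvPolynomial (Fin (m + 2)) k),
      e₀ ≤ e ∧ (∀ j, (F j).IsHomogeneous e) ∧ G ≠ 0 ∧ G.IsHomogeneous d ∧
      (∀ (L : Type) [Field L] (τ : k →+* L) (x : Fin (n + 1) → L), x ≠ 0 →
        (∀ P ∈ S, P.eval₂ τ x = 0) →
        (∃ j, (F j).eval₂ τ x ≠ 0) ∧ G.eval₂ τ (fun j => (F j).eval₂ τ x) = 0) ∧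
      (∀ (L : Type) [Field L] (τ : k →+* L) (r : ℕ) (x : Fin (r + 1) → Fin (n + 1) → L),
        (∀ a, x a ≠ 0) → (∀ a, ∀ P ∈ S, P.eval₂ τ (x a) = 0) →
        (∀ a a', ∃ c : L, ∀ j, (F j).eval₂ τ (x a) = c * (F j).eval₂ τ (x a')) →
        (∀ a a', a ≠ a' → ¬ ∃ c : L, x a = c • x a') →
        ∀ (β : Fin (n + 1)) (s : ℕ) (α : Fin s → Fin (n + 1)), x 0 β ≠ 0 →
          (∀ Q : MvPolynomial (Fin s) k,
            Q.eval₂ τ (fun i => x 0 (α i) / x 0 β) = 0 → Q = 0) → r + s ≤ m) ∧
      (∀ (L : Type) [Field L] (τ : k →+* L), (points τ {G}).Finite → (points τ S).Finite) ∧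
      (∀ σ : k →+* ℂ, KobayashiHyperbolic (points σ {G}) ↔ KobayashiHyperbolic (points σ S)) ∧
      ((Ideal.span S).radical.IsPrime →
        ringKrullDim (MvPolynomial (Fin (n + 1)) k ⧸ Ideal.span S) =
          ((m + 1 : ℕ) : WithBot ℕ∞) →
        Irreducible G ∧ e ^ m ≤ d ∧
        (∀ (L : Type) [Field L] [IsAlgClosed L] (τ : k →+* L) (y : Fin (m + 2) → L),
          G.eval₂ τ y = 0 → ∃ x : Fin (n + 1) → L, (∀ P ∈ S, P.eval₂ τ x = 0) ∧
            ∀ j, y j = (F j).eval₂ τ x) ∧
        ∃ (r : ℕ) (R : Fin (n + 1) → MvPolynomial (Fin (m + 2)) k)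
          (A : MvPolynomial (Fin (n + 1)) k),
          (∀ i, (R i).IsHomogeneous r) ∧ A ∉ (Ideal.span S).radical ∧
          ∀ (L : Type) [Field L] (τ : k →+* L) (x : Fin (n + 1) → L),
            (∀ P ∈ S, P.eval₂ τ x = 0) →
            ∀ i, (R i).eval₂ τ (fun j => (F j).eval₂ τ x) = A.eval₂ τ x * x i) :=
  Hy.top_geob k n m e₀ S hS hdim

end Pool.Agent.Results.MP_627a61_nt.SameDimension
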