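import Pool.Agent.Lib.MP_627a61_nt.Sq.Quad

/-!
Rational points on Kobayashi hyperbolic projective varieties: every projective variety is a
closed subvariety of a smooth complete intersection of diagonal quadrics which is hyperbolic if
and only if the variety is.
-/

open scoped LinearAlgebra.Projectivization
open MvPolynomial
open Pool.Agent.Lib.MP_627a61_nt

namespace Pool.Agent.Results.MP_627a61_nt.SmoothQuadrics

/-- Let `Z` be a projective variety over a field `k` of characteristic zero, the zero locus in
projective `n`-space of a set `S` of homogeneous polynomials. There are `D₀` and `e > 0` such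
that for all `D ≥ D₀`, all `r ≥ D ^ 3` and every finite set `T` of embeddings of `k` in `ℂ` there
are: a system of `r` diagonal quadrics in projective `(D + r)`-space over `k`, with zero locus
`X`; linear forms `L 0, ..., L (D + r)` on projective `D`-space; and forms `F 0, ..., F (D + r)`
of degree `e` on projective `n`-space, such that:
* all maximal minors of the matrix of the quadrics are nonzero, and `X` is a smooth complete
  intersection;
* the `L l` are in general position and over every extension of `k` the variety `X` is the set of
  all `z` such that the squares `z l ^ 2` are the values of the `L l` at one vector;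
* the `F l` span the space of all forms of degree `e` (so they embed projective `n`-space), and a
  point over an extension field is in `Z` if and only if its image is in `X`;
* for all `σ` in `T` the complex space of `X` is Kobayashi hyperbolic if and only if that of `Z`
  is;
* the `k`-points of `Z` inject into the set of the `k`-points of projective `D`-space at which
  all `L l` are squares in `k` up to a common factor, and this set is finite if and only if `X`
  has only finitely many `k`-points. -/
theorem result (k : Type) [Field k] [CharZero k] (n : ℕ)
    (S : Set (MvPolynomial (Fin (n + 1)) k)) (hS : ∀ P ∈ S, ∃ m, P.IsHomogeneous m) :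
    ∃ D₀ e : ℕ, 0 < e ∧ ∀ D, D₀ ≤ D → ∀ r, D ^ 3 ≤ r → ∀ T : Set (k →+* ℂ), T.Finite →
      ∃ (a : Fin r → Fin (D + r + 1) → k) (L : Fin (D + r + 1) → Fin (D + 1) → k)
        (F : Fin (D + r + 1) → MvPolynomial (Fin (n + 1)) k),
        (MaxMinors a ∧ SmoothCompleteIntersection fun c =>
          (∑ l, C (a c l) * X l ^ 2 : MvPolynomial (Fin (D + r + 1)) k)) ∧
        (GenPos L ∧ ∀ (K : Type) [Field K] (τ : k →+* K),
          points τ (diagQuad a) = sqCover τ L) ∧
        Submodule.span k (Set.range F) = homogeneousSubmodule (Fin (n + 1)) k e ∧
        (∀ (K : Type) [Field K] (τ : k →+* K) (x : Fin (n + 1) → K), x ≠ 0 →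
          ((∀ P ∈ S, P.eval₂ τ x = 0) ↔ ∀ c, ∑ l, τ (a c l) * (F l).eval₂ τ x ^ 2 = 0)) ∧
        (∀ σ ∈ T, KobayashiHyperbolic (points σ (diagQuad a)) ↔
          KobayashiHyperbolic (points σ S)) ∧
        (∃ g : points (RingHom.id k) S → squarePoints L, Function.Injective g) ∧
        ((squarePoints L).Finite ↔ (points (RingHom.id k) (diagQuad a)).Finite) :=
  quad_embedding k n S hS

end Pool.Agent.Results.MP_627a61_nt.SmoothQuadrics
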